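import Mathlib

set_option autoImplicit false

namespace Pool.Agent.Results.MP_e752eb_gt.Main

open Set Topology Filter Metric TopologicalSpace

def StronglyTelgarsky (X : Type*) [TopologicalSpace X] : Prop :=
  ∃ ℬ : Set (Set X), IsTopologicalBasis ℬ ∧ (∀ B ∈ ℬ, B.Nonempty) ∧
    ∀ B : ℕ → Set X, (∀ n, B n ∈ ℬ) → (∀ n, closure (B (n + 1)) ⊆ interior (B n)) →
      (⋂ n, B n).Nonempty

theorem result (X : Type*) [TopologicalSpace X] [IsCompletelyMetrizableSpace X] :
    StronglyTelgarsky X := by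
  let _ := upgradeIsCompletelyMetrizable X
  have hD : ∀ n : ℕ, ∃ D : Set X, (D.Pairwise fun x y => (1 / 2 : ℝ) ^ n ≤ dist x y) ∧
      ∀ x, ∃ d ∈ D, dist x d < (1 / 2) ^ n := fun n => by
    obtain ⟨D, h⟩ := zorn_subset {D : Set X | D.Pairwise fun x y => (1 / 2 : ℝ) ^ n ≤ dist x y}
      fun c h1 h2 => ⟨⋃₀ c, (pairwise_sUnion h2.directedOn).2 h1, fun _ => subset_sUnion_of_mem⟩
    refine ⟨D, h.prop, fun x => by_contra fun hx => ?_⟩
    push Not at hx
    have h1 := h.eq_of_subset (h.prop.insert fun y hy _ => ⟨hx y hy, dist_comm x y ▸ hx y hy⟩)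
      (subset_insert x D)
    have := hx x (h1 ▸ mem_insert x D)
    rw [dist_self] at this
    exact absurd this (by simp)
  choose D h1 h2 using hD
  have hp : ∀ n : ℕ, (0 : ℝ) < (1 / 2) ^ n := fun n => by positivity
  have ht := tendsto_pow_atTop_nhds_zero_of_lt_one (show (0 : ℝ) ≤ 1 / 2 by norm_num) (by norm_num)
  refine ⟨{B | ∃ n, ∃ d ∈ D n, B = ball d ((1 / 2) ^ n)}, isTopologicalBasis_of_isOpen_of_nhds
    (by rintro _ ⟨n, d, -, rfl⟩; exact isOpen_ball) fun x U hx hU => ?_,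
    by rintro _ ⟨n, d, -, rfl⟩; exact ⟨d, mem_ball_self (hp n)⟩, fun B hB h3 => ?_⟩
  · obtain ⟨ε, h3, h4⟩ := Metric.isOpen_iff.1 hU x hx
    obtain ⟨n, hn⟩ := (ht.eventually (gt_mem_nhds (half_pos h3))).exists
    obtain ⟨d, h5, h6⟩ := h2 n x
    exact ⟨_, ⟨n, d, h5, rfl⟩, h6, (ball_subset (by rw [dist_comm]; linarith)).trans h4⟩
  choose l d h4 h5 using hB
  have hA : Antitone B := antitone_nat_of_succ_le fun n =>
    subset_closure.trans ((h3 n).trans interior_subset)
  have hd : ∀ n, d n ∈ B n := fun n => h5 n ▸ mem_ball_self (hp _)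
  by_cases h : ∃ m, ∃ᶠ k in atTop, l k = m
  · obtain ⟨m, hm⟩ := h
    obtain ⟨k, hk⟩ := hm.exists
    refine ⟨d k, mem_iInter.2 fun n => ?_⟩
    obtain ⟨i, h6, h7⟩ := (hm.and_eventually (eventually_ge_atTop (max k n))).exists
    have h8 : d i = d k := by_contra fun h8 => by
      have h9 := hA (le_of_max_le_left h7) (hd i)
      rw [h5 k, hk] at h9
      exact (h1 m (h6 ▸ h4 i) (hk ▸ h4 k) h8).not_gt h9
    exact h8 ▸ hA (le_of_max_le_right h7) (hd i)
  · have h6 : Tendsto l atTop atTop := by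
      push Not at h
      refine tendsto_atTop.2 fun m => ?_
      filter_upwards [(eventually_all_finite (finite_lt_nat m)).2 fun i _ => h i] with k hk
      exact le_of_not_gt fun c => hk _ c rfl
    obtain ⟨x, hx⟩ := cauchySeq_tendsto_of_complete (cauchySeq_of_le_tendsto_0' (s := d)
      (fun k => (1 / 2) ^ l k) (fun k i h7 => by
        have := hA h7 (hd i)
        rw [h5 k] at this
        exact (mem_ball'.1 this).le) (ht.comp h6))
    exact ⟨x, mem_iInter.2 fun n => interior_subset (h3 n (mem_closure_of_tendsto hx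
      ((eventually_ge_atTop (n + 1)).mono fun k hk => hA hk (hd k))))⟩

end Pool.Agent.Results.MP_e752eb_gt.Main
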